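import Pool.Agent.Y969.SM.Stm2

set_option autoImplicit false

/-!
# Project SX, part EUL: the truncated main term against the product of the local densities
-/

namespace Pool.Agent.Y978.SX

open Finset Filter Topology MeasureTheory Complex
open Pool.Agent.Y969.GP (ht lam FR PS mB)
open Pool.Agent.Y969.SM

noncomputable section

/-- the characters -/
def ex {n : ℕ} (q : Fin n → ℕ × ℕ) (c : Fin n → ℝ) : ℂ :=
  ∏ j, cexp (I * ((c j * lam (q j) : ℝ) : ℂ))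

lemma ex_norm {n : ℕ} (q : Fin n → ℕ × ℕ) (c : Fin n → ℝ) : ‖ex q c‖ = 1 := by
  unfold ex
  rw [norm_prod]
  exact prod_eq_one fun j _ => by rw [mul_comm, norm_exp_ofReal_mul_I]

lemma ex_cont {n : ℕ} (q : Fin n → ℕ × ℕ) : Continuous (ex q) := by
  unfold ex
  fun_prop

/-- sums over tuples -/
def sm {n : ℕ} (Z : ℕ) (a : (Fin n → ℕ × ℕ) → ℂ) (c : Fin n → ℝ) : ℂ :=
  ∑ q ∈ Fintype.piFinset (fun _ : Fin n => FR Z), a q * ex q c

lemma sm_cont {n : ℕ} (Z : ℕ) (a : (Fin n → ℕ × ℕ) → ℂ) : Continuous (sm Z a) := by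
  unfold sm
  exact continuous_finsetSum _ fun q _ => continuous_const.mul (ex_cont q)

lemma sm_bd {n : ℕ} (Z : ℕ) (a : (Fin n → ℕ × ℕ) → ℂ) (c : Fin n → ℝ) :
    ‖sm Z a c‖ ≤ ∑ q ∈ Fintype.piFinset (fun _ : Fin n => FR Z), ‖a q‖ := by
  unfold sm
  refine (norm_sum_le _ _).trans (sum_le_sum fun q _ => ?_)
  rw [norm_mul, ex_norm, mul_one]

instance fin_mB (n : ℕ) (a U : ℝ) : IsFiniteMeasure (mB n a U) := by
  unfold mB
  infer_instance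

lemma sm_int {n : ℕ} (Z : ℕ) (a : (Fin n → ℕ × ℕ) → ℂ) (U : ℝ) :
    Integrable (fun c => ‖sm Z a c‖ ^ 2) (mB n 0 U) := by
  refine Integrable.of_bound ((sm_cont Z a).norm.pow 2).aestronglyMeasurable
    ((∑ q ∈ Fintype.piFinset (fun _ : Fin n => FR Z), ‖a q‖) ^ 2) (ae_of_all _ fun c => ?_)
  rw [Real.norm_of_nonneg (sq_nonneg _)]
  exact pow_le_pow_left₀ (norm_nonneg _) (sm_bd Z a c) 2

lemma mass (n : ℕ) {U : ℝ} (hU : 0 ≤ U) : (mB n 0 U).real Set.univ = U ^ n := by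
  unfold mB
  rw [Measure.real, Measure.pi_univ]
  simp [ENNReal.toReal_ofReal hU]

/-- the product of the heights -/
def Tq {n : ℕ} (q : Fin n → ℕ × ℕ) : ℝ := ∏ j, ht (q j)

/-- the weight of a tuple -/
def wq {n : ℕ} (q : Fin n → ℕ × ℕ) : ℝ := w2 (∏ j, (q j).1, ∏ j, (q j).2)

lemma mem_FR {Z : ℕ} {p : ℕ × ℕ} : p ∈ FR Z ↔
    ((1 ≤ p.1 ∧ p.1 ≤ Z) ∧ (1 ≤ p.2 ∧ p.2 ≤ Z)) ∧ p.1 * p.2 ≤ Z ∧ Nat.Coprime p.1 p.2 := by
  unfold FR PS
  simp only [Finset.mem_filter, Finset.mem_product, Finset.mem_Icc]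
  tauto

lemma mem_pi {n Z : ℕ} {q : Fin n → ℕ × ℕ}
    (hq : q ∈ Fintype.piFinset (fun _ : Fin n => FR Z)) (j : Fin n) :
    1 ≤ (q j).1 ∧ 1 ≤ (q j).2 := by
  have := mem_FR.1 (Fintype.mem_piFinset.1 hq j)
  exact ⟨this.1.1.1, this.1.2.1⟩

lemma Tq_eq {n : ℕ} (q : Fin n → ℕ × ℕ) :
    Tq q = ((∏ j, (q j).1 : ℕ) : ℝ) * ((∏ j, (q j).2 : ℕ) : ℝ) := by
  unfold Tq ht
  push_cast
  rw [Finset.prod_mul_distrib]

lemma Tq_eq2 {n : ℕ} (q : Fin n → ℕ × ℕ) : Tq q = ((∏ j, ((q j).1 * (q j).2) : ℕ) : ℝ) := by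
  unfold Tq ht
  push_cast
  rfl

lemma one_le_p {ι : Type*} (s : Finset ι) (f : ι → ℝ) (h : ∀ i ∈ s, 1 ≤ f i) :
    1 ≤ ∏ i ∈ s, f i := by
  calc (1 : ℝ) = ∏ i ∈ s, (1 : ℝ) := by simp
    _ ≤ _ := prod_le_prod (fun _ _ => zero_le_one) h

lemma ht_one {p : ℕ × ℕ} (h1 : 1 ≤ p.1) (h2 : 1 ≤ p.2) : 1 ≤ ht p := by
  unfold ht
  have h3 : (1 : ℝ) ≤ p.1 := by exact_mod_cast h1
  have h4 : (1 : ℝ) ≤ p.2 := by exact_mod_cast h2
  nlinarith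

lemma Tq_one {n Z : ℕ} {q : Fin n → ℕ × ℕ}
    (hq : q ∈ Fintype.piFinset (fun _ : Fin n => FR Z)) : 1 ≤ Tq q := by
  unfold Tq
  exact one_le_p _ _ fun j _ => ht_one (mem_pi hq j).1 (mem_pi hq j).2

lemma ht_le_Tq {n Z : ℕ} {q : Fin n → ℕ × ℕ}
    (hq : q ∈ Fintype.piFinset (fun _ : Fin n => FR Z)) (j : Fin n) : ht (q j) ≤ Tq q := by
  unfold Tq
  rw [← Finset.mul_prod_erase univ _ (mem_univ j)]
  have h1 : 1 ≤ ht (q j) := ht_one (mem_pi hq j).1 (mem_pi hq j).2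
  have h2 : 1 ≤ ∏ i ∈ univ.erase j, ht (q i) :=
    one_le_p _ _ fun i _ => ht_one (mem_pi hq i).1 (mem_pi hq i).2
  nlinarith

/-- the size of the weights -/
lemma wq_bd (h5 : S_W2B) : ∃ C : ℝ, 0 < C ∧ ∀ (n Z : ℕ) (q : Fin n → ℕ × ℕ),
    q ∈ Fintype.piFinset (fun _ : Fin n => FR Z) →
    wq q ^ 2 ≤ C * (Tq q ^ (-2 + 1 / 10 : ℝ) *
      (Nat.gcd (∏ j, (q j).1) (∏ j, (q j).2) : ℝ) ^ 2) := by
  obtain ⟨C, hC, h⟩ := h5 (1 / 20) (by norm_num)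
  refine ⟨C ^ 2, by positivity, fun n Z q hq => ?_⟩
  have h1 : 1 ≤ ∏ j, (q j).1 := Nat.one_le_iff_ne_zero.2
    (Finset.prod_ne_zero_iff.2 fun j _ => Nat.one_le_iff_ne_zero.1 (mem_pi hq j).1)
  have h2 : 1 ≤ ∏ j, (q j).2 := Nat.one_le_iff_ne_zero.2
    (Finset.prod_ne_zero_iff.2 fun j _ => Nat.one_le_iff_ne_zero.1 (mem_pi hq j).2)
  obtain ⟨h3, h4⟩ := h _ _ h1 h2
  rw [← Tq_eq] at h4
  have hT : 0 < Tq q := lt_of_lt_of_le one_pos (Tq_one hq)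
  have h6 : wq q ^ 2 ≤ (C * (Tq q ^ (-1 + 1 / 20 : ℝ) *
      (Nat.gcd (∏ j, (q j).1) (∏ j, (q j).2) : ℝ))) ^ 2 := pow_le_pow_left₀ h3 h4 2
  refine h6.trans (le_of_eq ?_)
  have h7 : (Tq q ^ (-1 + 1 / 20 : ℝ)) ^ 2 = Tq q ^ (-2 + 1 / 10 : ℝ) := by
    rw [← Real.rpow_natCast, ← Real.rpow_mul hT.le]
    norm_num
  rw [mul_pow, mul_pow, h7]

lemma sumw (h4 : S_ARI) (h5 : S_W2B) (n : ℕ) : ∃ C : ℝ, 0 < C ∧ ∀ Z : ℕ,
    (∑ q ∈ Fintype.piFinset (fun _ : Fin n => FR Z), wq q ^ 2 ≤ C) ∧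
    ∀ Y : ℕ, 1 ≤ Y → ∑ q ∈ Fintype.piFinset (fun _ : Fin n => FR Z),
      (if (Y : ℝ) < Tq q then wq q ^ 2 else 0) ≤ C * (Y : ℝ) ^ (-(1 / 10) : ℝ) := by
  obtain ⟨C1, hC1, h1⟩ := wq_bd h5
  obtain ⟨C2, hC2, h2⟩ := h4 n (1 / 5) (by norm_num)
  refine ⟨C1 * C2, by positivity, fun Z => ⟨?_, fun Y hY => ?_⟩⟩
  · refine le_trans (sum_le_sum (g := fun q => C1 * (Tq q ^ (-2 + 1 / 5 : ℝ) *
      (Nat.gcd (∏ j, (q j).1) (∏ j, (q j).2) : ℝ) ^ 2)) fun q hq => ?_) ?_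
    · refine (h1 n Z q hq).trans ?_
      have h3 : Tq q ^ (-2 + 1 / 10 : ℝ) ≤ Tq q ^ (-2 + 1 / 5 : ℝ) :=
        Real.rpow_le_rpow_of_exponent_le (Tq_one hq) (by norm_num)
      gcongr
    · rw [← mul_sum]
      exact mul_le_mul_of_nonneg_left (h2 Z) hC1.le
  · have hY0 : (0 : ℝ) < Y := by exact_mod_cast hY
    refine le_trans (sum_le_sum (g := fun q => C1 * (Y : ℝ) ^ (-(1 / 10) : ℝ) *
      (Tq q ^ (-2 + 1 / 5 : ℝ) *
      (Nat.gcd (∏ j, (q j).1) (∏ j, (q j).2) : ℝ) ^ 2)) fun q hq => ?_) ?_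
    · have hT : 0 < Tq q := lt_of_lt_of_le one_pos (Tq_one hq)
      split_ifs with h
      · refine (h1 n Z q hq).trans ?_
        have h3 : Tq q ^ (-2 + 1 / 10 : ℝ) ≤
            (Y : ℝ) ^ (-(1 / 10) : ℝ) * Tq q ^ (-2 + 1 / 5 : ℝ) := by
          have h6 : Tq q ^ (-2 + 1 / 10 : ℝ) =
              Tq q ^ (-(1 / 10) : ℝ) * Tq q ^ (-2 + 1 / 5 : ℝ) := by
            rw [← Real.rpow_add hT]
            norm_num
          rw [h6]
          refine mul_le_mul_of_nonneg_right ?_ (by positivity)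
          exact Real.rpow_le_rpow_of_nonpos hY0 h.le (by norm_num)
        calc C1 * (Tq q ^ (-2 + 1 / 10 : ℝ) *
              (Nat.gcd (∏ j, (q j).1) (∏ j, (q j).2) : ℝ) ^ 2) ≤
            C1 * ((Y : ℝ) ^ (-(1 / 10) : ℝ) * Tq q ^ (-2 + 1 / 5 : ℝ) *
              (Nat.gcd (∏ j, (q j).1) (∏ j, (q j).2) : ℝ) ^ 2) := by gcongr
          _ = _ := by ring
      · positivity
    · rw [← mul_sum]
      calc C1 * (Y : ℝ) ^ (-(1 / 10) : ℝ) * ∑ q ∈ Fintype.piFinset (fun _ : Fin n => FR Z),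
            (Tq q ^ (-2 + 1 / 5 : ℝ) * (Nat.gcd (∏ j, (q j).1) (∏ j, (q j).2) : ℝ) ^ 2) ≤
          C1 * (Y : ℝ) ^ (-(1 / 10) : ℝ) * C2 :=
            mul_le_mul_of_nonneg_left (h2 Z) (by positivity)
        _ = _ := by ring

/-- the truncated main term as a sum over larger tuples -/
lemma BY_eq {n Y W : ℕ} (hYW : Y ≤ W) (c : Fin n → ℝ) :
    BY n Y c = sm W (fun q => if Tq q ≤ Y then (wq q : ℂ) else 0) c := by
  unfold BY sm
  simp_rw [ite_mul, zero_mul]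
  rw [← Finset.sum_filter]
  refine Finset.sum_congr ?_ fun q _ => rfl
  ext q
  simp only [Finset.mem_filter, Fintype.mem_piFinset]
  constructor
  · rintro ⟨h1, h2⟩
    refine ⟨fun j => ?_, h2⟩
    have h3 := mem_FR.1 (h1 j)
    exact mem_FR.2 ⟨⟨⟨h3.1.1.1, h3.1.1.2.trans hYW⟩, h3.1.2.1, h3.1.2.2.trans hYW⟩,
      h3.2.1.trans hYW, h3.2.2⟩
  · rintro ⟨h1, h2⟩
    refine ⟨fun j => ?_, h2⟩
    have h3 := mem_FR.1 (h1 j)
    have h4 : ht (q j) ≤ Y := (ht_le_Tq (Fintype.mem_piFinset.2 h1) j).trans h2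
    have h5 : (q j).1 * (q j).2 ≤ Y := by
      unfold ht at h4
      exact_mod_cast h4
    exact mem_FR.2 ⟨⟨⟨h3.1.1.1, le_trans (Nat.le_mul_of_pos_right _ h3.1.2.1) h5⟩,
      h3.1.2.1, le_trans (Nat.le_mul_of_pos_left _ h3.1.1.1) h5⟩, h5, h3.2.2⟩

/-- the product over the primes -/
def PP (y : ℕ) : ℂ := ∏ p ∈ (Finset.range (y + 1)).filter Nat.Prime, (1 - 1 / (p : ℂ) ^ 2)

lemma PP_tendsto : Tendsto PP atTop (𝓝 ((6 / Real.pi ^ 2 : ℝ) : ℂ)) := by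
  have h := riemannZeta_eulerProduct (s := 2) (by norm_num)
  rw [riemannZeta_two] at h
  have hpi : ((Real.pi : ℂ) ^ 2 / 6) ≠ 0 := by
    have h3 : (Real.pi : ℂ) ≠ 0 := by exact_mod_cast Real.pi_ne_zero
    exact div_ne_zero (pow_ne_zero _ h3) (by norm_num)
  have h2 := (h.comp (tendsto_add_atTop_nat 1)).inv₀ hpi
  have e : ((6 / Real.pi ^ 2 : ℝ) : ℂ) = ((Real.pi : ℂ) ^ 2 / 6)⁻¹ := by
    push_cast
    rw [inv_div]
  rw [e]
  refine h2.congr fun y => ?_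
  simp only [Function.comp]
  unfold PP Nat.primesBelow
  rw [← Finset.prod_inv_distrib]
  refine prod_congr rfl fun p _ => ?_
  rw [inv_inv, cpow_neg, one_div]
  norm_num

lemma err_tendsto (C β : ℝ) (hC : 0 < C) (hβ : 0 < β) :
    Tendsto (fun U : ℝ => ((⌊U ^ β⌋₊ : ℕ) : ℝ) ^ (-(1 / 4) : ℝ) *
      Real.exp (C * √((⌊Real.log U⌋₊ : ℕ) : ℝ))) atTop (𝓝 0) := by
  have h0 : Tendsto (fun U : ℝ => 2 * U ^ (-(β / 8))) atTop (𝓝 0) := by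
    simpa using (tendsto_rpow_neg_atTop (by positivity : 0 < β / 8)).const_mul 2
  refine squeeze_zero' (Eventually.of_forall fun U => by positivity) ?_ h0
  have hlog := Real.tendsto_log_atTop.eventually (eventually_ge_atTop ((8 * C / β) ^ 2))
  filter_upwards [eventually_ge_atTop 1, hlog] with U hU hL
  have hL0 : 0 ≤ Real.log U := Real.log_nonneg hU
  have hU0 : 0 < U := by linarith
  have h1 : 1 ≤ U ^ β := Real.one_le_rpow hU hβ.le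
  have h2 : U ^ β / 2 ≤ ((⌊U ^ β⌋₊ : ℕ) : ℝ) := by
    have h3 : (1 : ℝ) ≤ ((⌊U ^ β⌋₊ : ℕ) : ℝ) := by
      have h4 : 1 ≤ ⌊U ^ β⌋₊ := Nat.le_floor (by simpa using h1)
      exact_mod_cast h4
    have h4 := Nat.lt_floor_add_one (U ^ β)
    linarith
  have h5 : ((⌊U ^ β⌋₊ : ℕ) : ℝ) ^ (-(1 / 4) : ℝ) ≤ 2 * U ^ (-(β / 4)) := by
    have h6 : (U ^ β / 2) ^ (-(1 / 4) : ℝ) = U ^ (-(β / 4)) * (2 : ℝ) ^ (1 / 4 : ℝ) := by
      rw [Real.div_rpow (by positivity) (by norm_num), ← Real.rpow_mul hU0.le, div_eq_mul_inv,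
        ← Real.rpow_neg (by norm_num)]
      congr 2
      · ring
      · ring
    have h7 : (2 : ℝ) ^ (1 / 4 : ℝ) ≤ 2 ^ (1 : ℝ) :=
      Real.rpow_le_rpow_of_exponent_le (by norm_num) (by norm_num)
    rw [Real.rpow_one] at h7
    calc ((⌊U ^ β⌋₊ : ℕ) : ℝ) ^ (-(1 / 4) : ℝ) ≤ (U ^ β / 2) ^ (-(1 / 4) : ℝ) :=
          Real.rpow_le_rpow_of_nonpos (by positivity) h2 (by norm_num)
      _ = U ^ (-(β / 4)) * (2 : ℝ) ^ (1 / 4 : ℝ) := h6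
      _ ≤ U ^ (-(β / 4)) * 2 := by gcongr
      _ = _ := by ring
  have h6 : Real.exp (C * √((⌊Real.log U⌋₊ : ℕ) : ℝ)) ≤ U ^ (β / 8) := by
    rw [Real.rpow_def_of_pos hU0]
    apply Real.exp_le_exp.2
    have h7 : ((⌊Real.log U⌋₊ : ℕ) : ℝ) ≤ Real.log U := Nat.floor_le hL0
    have h8 : √((⌊Real.log U⌋₊ : ℕ) : ℝ) ≤ √(Real.log U) := Real.sqrt_le_sqrt h7
    have h9 : 8 * C / β ≤ √(Real.log U) := Real.le_sqrt_of_sq_le hL
    have h10 : √(Real.log U) ^ 2 = Real.log U := Real.sq_sqrt hL0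
    have h11 : C ≤ √(Real.log U) * (β / 8) := by
      rw [div_le_iff₀ hβ] at h9
      linarith
    calc C * √((⌊Real.log U⌋₊ : ℕ) : ℝ) ≤ C * √(Real.log U) := by gcongr
      _ ≤ √(Real.log U) * (β / 8) * √(Real.log U) := by gcongr
      _ = √(Real.log U) ^ 2 * (β / 8) := by ring
      _ = _ := by rw [h10]
  calc ((⌊U ^ β⌋₊ : ℕ) : ℝ) ^ (-(1 / 4) : ℝ) * Real.exp (C * √((⌊Real.log U⌋₊ : ℕ) : ℝ)) ≤
        2 * U ^ (-(β / 4)) * U ^ (β / 8) := mul_le_mul h5 h6 (by positivity) (by positivity)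
    _ = 2 * U ^ (-(β / 8)) := by
      rw [mul_assoc, ← Real.rpow_add hU0]
      congr 2
      ring

lemma W_bd (n : ℕ) {U : ℝ} (hU : 16 ≤ U) :
    4 * ((⌊U ^ (1 / (4 * (n : ℝ) + 8))⌋₊ : ℕ) : ℝ) ^ (2 * n + 1) ≤ U := by
  have hU0 : 0 < U := by linarith
  have h1 : ((⌊U ^ (1 / (4 * (n : ℝ) + 8))⌋₊ : ℕ) : ℝ) ≤ U ^ (1 / (4 * (n : ℝ) + 8)) :=
    Nat.floor_le (by positivity)
  have h2 := pow_le_pow_left₀ (Nat.cast_nonneg _) h1 (2 * n + 1)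
  have h3 : (U ^ (1 / (4 * (n : ℝ) + 8))) ^ (2 * n + 1) ≤ U ^ (1 / 2 : ℝ) := by
    rw [← Real.rpow_natCast, ← Real.rpow_mul hU0.le]
    refine Real.rpow_le_rpow_of_exponent_le (by linarith) ?_
    rw [div_mul_eq_mul_div, one_mul, div_le_div_iff₀ (by positivity) (by norm_num)]
    push_cast
    linarith
  have h5 : U ^ (1 / 2 : ℝ) = √U := (Real.sqrt_eq_rpow U).symm
  have h6 : √U * √U = U := Real.mul_self_sqrt hU0.le
  have h7 : 4 ≤ √U := Real.le_sqrt_of_sq_le (by linarith)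
  rw [h5] at h3
  nlinarith

theorem t_EUL (h1 : S_LOC) (h2 : S_EUT) (h3 : S_ORT) (h4 : S_ARI) (h5 : S_W2B) : S_EUL := by
  classical
  intro n ε hε
  obtain ⟨Cw, hCw, hw⟩ := sumw h4 h5 n
  obtain ⟨Ce, hCe, he⟩ := h2 n
  have hA0 : 0 < 6 / Real.pi ^ 2 := by positivity
  set A : ℝ := 6 / Real.pi ^ 2 with hA
  obtain ⟨δ, hδ⟩ : ∃ δ : ℝ, δ = ε / (4 * A) := ⟨_, rfl⟩
  have hδ0 : 0 < δ := by rw [hδ]; positivity
  have hδA : A * δ = ε / 4 := by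
    rw [hδ]
    field_simp
  have hY : ∀ᶠ Y : ℕ in atTop, A / δ * (2 * (Cw * (Y : ℝ) ^ (-(1 / 10) : ℝ))) ≤ ε / 4 := by
    have h6 : Tendsto (fun Y : ℕ => A / δ * (2 * (Cw * (Y : ℝ) ^ (-(1 / 10) : ℝ)))) atTop
        (𝓝 (A / δ * (2 * (Cw * 0)))) := by
      refine Tendsto.const_mul _ (Tendsto.const_mul _ (Tendsto.const_mul _ ?_))
      exact (tendsto_rpow_neg_atTop (by norm_num : (0 : ℝ) < 1 / 10)).comp
        tendsto_natCast_atTop_atTop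
    rw [mul_zero, mul_zero, mul_zero] at h6
    exact h6.eventually_le_const (by positivity)
  obtain ⟨Y₀, hY₀⟩ := eventually_atTop.1 (hY.and (eventually_ge_atTop 1))
  refine ⟨Y₀, fun Y hYY => ?_⟩
  obtain ⟨hY1, hY2⟩ := hY₀ Y hYY
  have hβ0 : 0 < 1 / (4 * (n : ℝ) + 8) := by positivity
  have hfl : Tendsto (fun U : ℝ => ⌊Real.log U⌋₊) atTop atTop :=
    tendsto_nat_floor_atTop.comp Real.tendsto_log_atTop
  have hfW : Tendsto (fun U : ℝ => ⌊U ^ (1 / (4 * (n : ℝ) + 8))⌋₊) atTop atTop :=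
    tendsto_nat_floor_atTop.comp (tendsto_rpow_atTop hβ0)
  have hP : Tendsto (fun U : ℝ => PP ⌊Real.log U⌋₊) atTop (𝓝 (A : ℂ)) := PP_tendsto.comp hfl
  have hP1 : Tendsto (fun U : ℝ => ‖(A : ℂ) - PP ⌊Real.log U⌋₊‖ * (1 + 2 * Cw)) atTop (𝓝 0) := by
    have h6 := ((tendsto_const_nhds (x := (A : ℂ))).sub hP).norm.mul_const (1 + 2 * Cw)
    simpa using h6
  have hE := err_tendsto Ce _ hCe hβ0
  have hP2 := hP.norm.mul hE
  rw [mul_zero] at hP2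
  filter_upwards [eventually_ge_atTop 16, hfl.eventually (eventually_ge_atTop Y),
    hfW.eventually (eventually_ge_atTop Y),
    hP1.eventually_le_const (show (0 : ℝ) < ε / 4 by positivity),
    hP2.eventually_le_const (show (0 : ℝ) < ε / 4 by positivity)] with U hU hy hWY hp1 hp2
  have hWb := W_bd n hU
  have hU0 : 0 ≤ U := by linarith
  obtain ⟨y, hyd⟩ : ∃ y : ℕ, y = ⌊Real.log U⌋₊ := ⟨_, rfl⟩
  obtain ⟨W, hWd⟩ : ∃ W : ℕ, W = ⌊U ^ (1 / (4 * (n : ℝ) + 8))⌋₊ := ⟨_, rfl⟩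
  rw [← hyd] at hy hp1 hp2
  rw [← hWd] at hWY hp2 hWb
  have hy1 : 1 ≤ y := hY2.trans hy
  have hW1 : 1 ≤ W := hY2.trans hWY
  obtain ⟨E, hEd⟩ : ∃ E : ℝ, E = (W : ℝ) ^ (-(1 / 4) : ℝ) * Real.exp (Ce * √(y : ℝ)) := ⟨_, rfl⟩
  rw [← hEd] at hp2
  -- the two sums
  obtain ⟨cond, hcond⟩ : ∃ cond : (Fin n → ℕ × ℕ) → Prop, cond = fun q => ∏ j, ht (q j) ≤ W ∧
    ∀ p : ℕ, p.Prime → p ∣ ∏ j, ((q j).1 * (q j).2) → p ≤ y := ⟨_, rfl⟩
  obtain ⟨aD, haD⟩ : ∃ aD : (Fin n → ℕ × ℕ) → ℂ, aD = fun q => if cond q then (wq q : ℂ) else 0 :=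
    ⟨_, rfl⟩
  obtain ⟨aB, haB⟩ : ∃ aB : (Fin n → ℕ × ℕ) → ℂ, aB = fun q => if Tq q ≤ Y then (wq q : ℂ) else 0 :=
    ⟨_, rfl⟩
  obtain ⟨L, hL⟩ : ∃ L : (Fin n → ℝ) → ℂ, L = fun c =>
    ∏ p ∈ (Finset.range (y + 1)).filter Nat.Prime, ∑' k : Fin n → ℤ, (lc p k : ℂ) *
      ∏ j, cexp (-(I * ((c j * Real.log p * k j : ℝ) : ℂ))) := ⟨_, rfl⟩
  have hSS : ∀ c : Fin n → ℝ, ((SS (Real.log U) c : ℝ) : ℂ) = PP y * L c := by
    intro c
    unfold SS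
    rw [ofReal_prod, ← hyd, prod_congr rfl (fun p hp => (h1 n p (mem_filter.1 hp).2 c).2),
      prod_mul_distrib, hL]
    rfl
  have hDL : ∀ c : Fin n → ℝ, ‖L c - sm W aD c‖ ≤ E := by
    intro c
    have h6 := he y W c hy1 hW1
    rw [hEd, hL]
    refine le_trans (le_of_eq ?_) h6
    congr 2
    rw [haD]
    unfold sm
    simp_rw [ite_mul, zero_mul]
    rw [← Finset.sum_filter, hcond]
    refine Finset.sum_congr ?_ fun q _ => rfl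
    ext q
    simp only [Finset.mem_filter]
  have hX : ∀ c : Fin n → ℝ, BY n Y c - sm W aD c = sm W (fun q => aB q - aD q) c := by
    intro c
    rw [BY_eq hWY, haB]
    unfold sm
    rw [← Finset.sum_sub_distrib]
    refine Finset.sum_congr rfl fun q _ => ?_
    ring
  have hXs : ∫ c, ‖sm W (fun q => aB q - aD q) c‖ ^ 2 ∂(mB n 0 U) ≤
      2 * U ^ n * (Cw * (Y : ℝ) ^ (-(1 / 10) : ℝ)) := by
    refine (h3 n W U (fun q => aB q - aD q) hW1 hWb).trans ?_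
    refine mul_le_mul_of_nonneg_left ?_ (by positivity)
    refine le_trans (sum_le_sum fun q hq => ?_) ((hw W).2 Y hY2)
    rw [haB, haD]
    by_cases hq1 : Tq q ≤ Y
    · have hc : cond q := by
        rw [hcond]
        refine ⟨hq1.trans (by exact_mod_cast hWY), fun p hp hpd => ?_⟩
        have hne : (∏ j, ((q j).1 * (q j).2)) ≠ 0 := by
          refine Finset.prod_ne_zero_iff.2 fun j _ => ?_
          have := mem_pi hq j
          exact Nat.mul_ne_zero (by omega) (by omega)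
        have h6 := Nat.le_of_dvd (Nat.pos_of_ne_zero hne) hpd
        rw [Tq_eq2] at hq1
        have h7 : (∏ j, ((q j).1 * (q j).2)) ≤ Y := by exact_mod_cast hq1
        omega
      simp only [if_pos hq1, if_pos hc, sub_self, norm_zero]
      rw [if_neg (not_lt.2 hq1)]
      norm_num
    · simp only [if_neg hq1]
      rw [if_pos (not_le.1 hq1), zero_sub, norm_neg]
      split_ifs
      · rw [Complex.norm_real, Real.norm_eq_abs, sq_abs]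
      · rw [norm_zero, zero_pow two_ne_zero]
        positivity
  have hDs : ∫ c, ‖sm W aD c‖ ^ 2 ∂(mB n 0 U) ≤ 2 * U ^ n * Cw := by
    refine (h3 n W U aD hW1 hWb).trans ?_
    refine mul_le_mul_of_nonneg_left ?_ (by positivity)
    refine le_trans (sum_le_sum fun q hq => ?_) (hw W).1
    rw [haD]
    simp only
    split_ifs
    · rw [Complex.norm_real, Real.norm_eq_abs, sq_abs]
    · rw [norm_zero, zero_pow two_ne_zero]
      positivity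
  obtain ⟨K2, hK2⟩ : ∃ K2 : ℝ, K2 = ‖(A : ℂ) - PP y‖ := ⟨_, rfl⟩
  have hK20 : 0 ≤ K2 := by rw [hK2]; positivity
  rw [← hK2] at hp1
  have hpt : ∀ c : Fin n → ℝ, ‖(A : ℂ) * BY n Y c - ((SS (Real.log U) c : ℝ) : ℂ)‖ ≤
      (A * δ + K2 + ‖PP y‖ * E) + (A / δ * ‖sm W (fun q => aB q - aD q) c‖ ^ 2 +
        K2 * ‖sm W aD c‖ ^ 2) := by
    intro c
    have e : (A : ℂ) * BY n Y c - ((SS (Real.log U) c : ℝ) : ℂ) =
        (A : ℂ) * sm W (fun q => aB q - aD q) c + ((A : ℂ) - PP y) * sm W aD c -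
          PP y * (L c - sm W aD c) := by
      rw [← hX, hSS]
      ring
    rw [e]
    refine (norm_sub_le _ _).trans ?_
    have h6 := norm_add_le ((A : ℂ) * sm W (fun q => aB q - aD q) c)
      (((A : ℂ) - PP y) * sm W aD c)
    rw [norm_mul, norm_mul, Complex.norm_real, Real.norm_of_nonneg hA0.le, ← hK2] at h6
    rw [norm_mul]
    have h7 := hDL c
    have h8 : ‖PP y‖ * ‖L c - sm W aD c‖ ≤ ‖PP y‖ * E := by gcongr
    obtain ⟨x, hx⟩ : ∃ x : ℝ, x = ‖sm W (fun q => aB q - aD q) c‖ := ⟨_, rfl⟩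
    obtain ⟨d, hd⟩ : ∃ d : ℝ, d = ‖sm W aD c‖ := ⟨_, rfl⟩
    rw [← hx, ← hd] at h6
    rw [← hx, ← hd]
    have h9 : A * x ≤ A * δ + A / δ * x ^ 2 := by
      have h10 : x ≤ δ + x ^ 2 / δ := by
        have h11 : δ + x ^ 2 / δ - x = ((x - δ / 2) ^ 2 + 3 / 4 * δ ^ 2) / δ := by
          field_simp
          ring
        have h12 : 0 ≤ ((x - δ / 2) ^ 2 + 3 / 4 * δ ^ 2) / δ := by positivity
        linarith
      calc A * x ≤ A * (δ + x ^ 2 / δ) := by gcongr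
        _ = _ := by ring
    have h10 : K2 * d ≤ K2 + K2 * d ^ 2 := by
      have h11 : d ≤ 1 + d ^ 2 := by nlinarith [sq_nonneg (d - 1 / 2)]
      calc K2 * d ≤ K2 * (1 + d ^ 2) := by gcongr
        _ = _ := by ring
    linarith
  have hi1 := sm_int W (fun q => aB q - aD q) U (n := n)
  have hi2 := sm_int W aD U (n := n)
  have hi3 : Integrable (fun c => A / δ * ‖sm W (fun q => aB q - aD q) c‖ ^ 2 +
      K2 * ‖sm W aD c‖ ^ 2) (mB n 0 U) := (hi1.const_mul _).add (hi2.const_mul _)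
  have hmain : ∫ c, ‖(A : ℂ) * BY n Y c - ((SS (Real.log U) c : ℝ) : ℂ)‖ ∂(mB n 0 U) ≤
      ∫ c, ((A * δ + K2 + ‖PP y‖ * E) + (A / δ * ‖sm W (fun q => aB q - aD q) c‖ ^ 2 +
        K2 * ‖sm W aD c‖ ^ 2)) ∂(mB n 0 U) :=
    integral_mono_of_nonneg (ae_of_all _ fun c => norm_nonneg _)
      ((integrable_const _).add hi3) (ae_of_all _ hpt)
  rw [integral_add (integrable_const _) hi3,
    integral_add (hi1.const_mul _) (hi2.const_mul _), integral_const_mul, integral_const_mul,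
    integral_const, mass n hU0, smul_eq_mul] at hmain
  have hUn : 0 ≤ U ^ n := by positivity
  have h6 : A / δ * ∫ c, ‖sm W (fun q => aB q - aD q) c‖ ^ 2 ∂(mB n 0 U) ≤ U ^ n * (ε / 4) := by
    calc A / δ * ∫ c, ‖sm W (fun q => aB q - aD q) c‖ ^ 2 ∂(mB n 0 U) ≤
          A / δ * (2 * U ^ n * (Cw * (Y : ℝ) ^ (-(1 / 10) : ℝ))) := by gcongr
      _ = U ^ n * (A / δ * (2 * (Cw * (Y : ℝ) ^ (-(1 / 10) : ℝ)))) := by ring
      _ ≤ _ := by gcongr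
  have h7 : K2 * ∫ c, ‖sm W aD c‖ ^ 2 ∂(mB n 0 U) ≤ U ^ n * (K2 * (2 * Cw)) := by
    calc K2 * ∫ c, ‖sm W aD c‖ ^ 2 ∂(mB n 0 U) ≤ K2 * (2 * U ^ n * Cw) := by gcongr
      _ = _ := by ring
  have h8 : U ^ n * (A * δ + K2 + ‖PP y‖ * E) + U ^ n * (ε / 4) + U ^ n * (K2 * (2 * Cw)) ≤
      ε * U ^ n := by
    have h9 : U ^ n * (A * δ + K2 + ‖PP y‖ * E) + U ^ n * (ε / 4) + U ^ n * (K2 * (2 * Cw)) =
        U ^ n * (ε / 4 + K2 * (1 + 2 * Cw) + ‖PP y‖ * E + ε / 4) := by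
      rw [hδA]
      ring
    rw [h9, mul_comm ε]
    refine mul_le_mul_of_nonneg_left ?_ hUn
    linarith
  linarith

end

end Pool.Agent.Y978.SX
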